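import Mathlib

/-!
# Homologically trivial cycles on polarised varieties, their Lefschetz operators and height pairings
-/

set_option autoImplicit false

namespace Pool.Agent.K6.H99.AHI

/-- The homologically trivial cycles on a polarised smooth projective variety over a number field,
with coefficients in the subfield `F` of the real numbers: the dimension, the degree of the
polarisation, the space `W` of all the homologically trivial cycles, its subspaces `Ch i` of the
cycles of codimension `i` (zero unless `1 ≤ i ≤ dim`), the Lefschetz operator `L` and the height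
pairing `B`, which is symmetric, for which `L` is self-adjoint and which is zero on two codimensions
whose sum is not `dim + 1`. -/
structure Cyc (F : Type) [Field F] [Algebra F ℝ] where
  dim : ℕ
  deg : ℕ
  deg_pos : 0 < deg
  W : Type
  [grp : AddCommGroup W]
  [mod : Module F W]
  Ch : ℤ → Submodule F W
  L : W →ₗ[F] W
  B : W →ₗ[F] W →ₗ[F] ℝ
  low (i : ℤ) : i ≤ 0 → Ch i = ⊥
  high (i : ℤ) : dim < i → Ch i = ⊥
  maps (i : ℤ) (x : W) : x ∈ Ch i → L x ∈ Ch (i + 1)
  symm (x y : W) : B x y = B y x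
  adj (x y : W) : B (L x) y = B x (L y)
  orth (i j : ℤ) (x y : W) : x ∈ Ch i → y ∈ Ch j → i + j ≠ dim + 1 → B x y = 0

attribute [instance] Cyc.grp Cyc.mod

variable {F : Type} [Field F] [Algebra F ℝ]

/-- the height pairing -/
def Cyc.ht (X : Cyc F) (x y : X.W) : ℝ := X.B x y

/-- Pull-back `p`, push-forward `q` and the product `M` with a divisor class map homologically trivial
cycles of codimension `i` to such cycles of codimension `i`, `i - dim Y` and `i + 1`. -/
structure Degrees (X Y Z : Cyc F) (p : X.W →ₗ[F] Z.W) (q : Z.W →ₗ[F] X.W) (M : Z.W →ₗ[F] Z.W) :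
    Prop where
  p_mem (i : ℤ) (x : X.W) : x ∈ X.Ch i → p x ∈ Z.Ch i
  q_mem (i : ℤ) (z : Z.W) : z ∈ Z.Ch i → q z ∈ X.Ch (i - Y.dim)
  M_mem (i : ℤ) (z : Z.W) : z ∈ Z.Ch i → M z ∈ Z.Ch (i + 1)

/-- The polarisation of `Z` is the sum of those of `X` and `Y`, where `M` is the product with the
polarisation of `Y`, whose power `dim Y + 1` is zero; projection formulas. -/
structure Polarised (X Y Z : Cyc F) (p : X.W →ₗ[F] Z.W) (q : Z.W →ₗ[F] X.W)
    (M : Z.W →ₗ[F] Z.W) : Prop where
  comm (z : Z.W) : Z.L (M z) = M (Z.L z)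
  nil (z : Z.W) : (M ^ (Y.dim + 1)) z = 0
  L_p (x : X.W) : Z.L (p x) = p (X.L x) + M (p x)
  q_L (z : Z.W) : q (Z.L z) = X.L (q z) + q (M z)

/-- The push-forward to `X` of a power `k ≤ dim Y` of the polarisation of `Y` is zero for `k < dim Y`
and the degree of `Y` for `k = dim Y`; the projection formulas for the height pairing. -/
structure Heights (X Y Z : Cyc F) (p : X.W →ₗ[F] Z.W) (q : Z.W →ₗ[F] X.W)
    (M : Z.W →ₗ[F] Z.W) : Prop where
  top (x : X.W) : q ((M ^ Y.dim) (p x)) = (Y.deg : F) • x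
  below (k : ℕ) (x : X.W) : k < Y.dim → q ((M ^ k) (p x)) = 0
  M_adj (z w : Z.W) : Z.ht (M z) w = Z.ht z (M w)
  p_adj (x : X.W) (z : Z.W) : Z.ht (p x) z = X.ht x (q z)

/-- `Z` is the product `X × Y` of the two polarised varieties: `p` is the pull-back of the
homologically trivial cycles on `X`, `q` is the push-forward to `X`, `M` is the product with the
first Chern class of the polarisation of `Y`. The polarisation of `Z` is the sum of those of `X` and
`Y`. -/
structure Times (X Y Z : Cyc F) where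
  dim_eq : Z.dim = X.dim + Y.dim
  p : X.W →ₗ[F] Z.W
  q : Z.W →ₗ[F] X.W
  M : Z.W →ₗ[F] Z.W
  degrees : Degrees X Y Z p q M
  polarised : Polarised X Y Z p q M
  heights : Heights X Y Z p q M

/-- For `Y` a projective space with the polarisation by hyperplanes: the projective bundle formula,
each homologically trivial cycle on `X × Y` is `∑ h ^ k p^* x_k`, `x_k = p_* (h ^ (dim Y - k) z)`. -/
def Times.Gen {X Y Z : Cyc F} (T : Times X Y Z) : Prop :=
  ∀ z : Z.W, z = ∑ k ∈ Finset.range (Y.dim + 1), (T.M ^ k) (T.p (T.q ((T.M ^ (Y.dim - k)) z)))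

/-- Beilinson's arithmetic hard Lefschetz conjecture (Q1) for `X` and `i`: for
`k = dim + 1 - 2 * i ≥ 0` the power `L ^ k` is a bijection from the homologically trivial cycles of
codimension `i` to those of codimension `i + k = dim + 1 - i`. -/
def HL (X : Cyc F) (i : ℕ) : Prop := ∀ k : ℕ, k + 2 * i = X.dim + 1 →
  (∀ x ∈ X.Ch i, (X.L ^ k) x = 0 → x = 0) ∧ ∀ y ∈ X.Ch (i + k), ∃ x ∈ X.Ch i, (X.L ^ k) x = y

/-- Beilinson's arithmetic Hodge index conjecture (Q2) for `X` and `i`. -/
def HI (X : Cyc F) (i : ℕ) : Prop := ∀ k : ℕ, k + 2 * i = X.dim + 1 →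
  ∀ x ∈ X.Ch i, x ≠ 0 → (X.L ^ (k + 1)) x = 0 → 0 < (-1 : ℝ) ^ i * X.ht x ((X.L ^ k) x)

/-- A class of polarised varieties which is closed under products, contains varieties of all
dimensions, and contains for each `a ≥ 1` a variety of dimension `2 * a - 1` with a cycle which has
the sign predicted by (Q2). -/
structure Closed (C : Set (Cyc F)) : Prop where
  mul (X Y : Cyc F) : X ∈ C → Y ∈ C → ∃ Z ∈ C, Nonempty (Times X Y Z) ∧ Nonempty (Times Y X Z)
  dims (m : ℕ) : ∃ Y ∈ C, Y.dim = m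
  sign (a : ℕ) : 1 ≤ a → ∃ E ∈ C, E.dim + 1 = 2 * a ∧
    ∃ e ∈ E.Ch a, E.L e = 0 ∧ 0 < (-1 : ℝ) ^ a * E.ht e e

/-- For `Z` of dimension `2 * a`: each homologically trivial cycle of codimension `a + 1` is the
product of one of codimension `a` with the polarisation. -/
def Onto (Z : Cyc F) (a : ℕ) : Prop := ∀ y ∈ Z.Ch (a + 1), ∃ x ∈ Z.Ch a, Z.L x = y

/-- For `Z` of dimension `2 * a - 1`: the height pairing is definite, of unspecified sign, on the
homologically trivial cycles of codimension `a` killed by `L`. -/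
def Definite (Z : Cyc F) (a : ℕ) : Prop := ∀ x ∈ Z.Ch a, ∀ y ∈ Z.Ch a, x ≠ 0 → y ≠ 0 →
  Z.L x = 0 → Z.L y = 0 → 0 < Z.ht x x * Z.ht y y

/-- For `Z` of dimension `2 * a - 1`: no nonzero homologically trivial cycle of codimension `a`
killed by `L` has height zero. -/
def Aniso (Z : Cyc F) (a : ℕ) : Prop := ∀ x ∈ Z.Ch a, x ≠ 0 → Z.L x = 0 → Z.ht x x ≠ 0

/-- For `Z` of dimension `2 * a - 1`: the height pairing on the homologically trivial cycles of
codimension `a` is nondegenerate. -/
def Nondeg (Z : Cyc F) (a : ℕ) : Prop := ∀ x ∈ Z.Ch a, x ≠ 0 → ∃ y ∈ Z.Ch a, Z.ht x y ≠ 0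

/-- (Q1) and (Q2) for `X` and `i` are equivalent to (Q1) and (Q2) for `X × P^A` and `i + A`, where
`A = dim X - 2 * i` and `A = dim X + 1 - 2 * i`. -/
def ProjectiveStep (F : Type) [Field F] [Algebra F ℝ] : Prop :=
  ∀ (X Y Z : Cyc F) (T : Times X Y Z), T.Gen → ∀ i : ℕ,
    (Y.dim + 2 * i = X.dim → (HL X i ↔ HL Z (i + Y.dim))) ∧
    (Y.dim + 2 * i = X.dim + 1 → (HI X i ↔ HI Z (i + Y.dim)))

/-- (Q2) for all varieties of the class and all `i` -/
def Index (C : Set (Cyc F)) : Prop := ∀ X ∈ C, ∀ i, HI X i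

/-- (Q1) and (Q2) for all varieties of the class and all `i` -/
def Both (C : Set (Cyc F)) : Prop := ∀ X ∈ C, ∀ i, HL X i ∧ HI X i

/-- for all `a` in `S`: one application of `L` in dimension `2 * a`, and definite forms, of
unspecified sign, in dimension `2 * a - 1` -/
def Middle (C : Set (Cyc F)) (S : Set ℕ) : Prop := ∀ a ∈ S,
  (∀ Z ∈ C, Z.dim = 2 * a → Onto Z a) ∧ ∀ Z ∈ C, Z.dim + 1 = 2 * a → Definite Z a

/-- for all `a` in `S`, in dimension `2 * a - 1`: no primitive cycles of height zero -/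
def MiddleAniso (C : Set (Cyc F)) (S : Set ℕ) : Prop := ∀ a ∈ S, ∀ Z ∈ C,
  Z.dim + 1 = 2 * a → Aniso Z a

/-- for all `a` in `S`, in dimension `2 * a - 1`: the pairing is nondegenerate -/
def MiddleNondeg (C : Set (Cyc F)) (S : Set ℕ) : Prop := ∀ a ∈ S, ∀ Z ∈ C,
  Z.dim + 1 = 2 * a → Nondeg Z a

end Pool.Agent.K6.H99.AHI
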