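import Pool.Agent.K6.H99.AHI.Ops

/-!
# Hyperplane sections and the weak Lefschetz theorem for homologically trivial cycles
-/

set_option autoImplicit false

namespace Pool.Agent.K6.H99.AHI

open Finset

variable {F : Type} [Field F] [Algebra F ℝ]

/-- Restriction `r` and Gysin map `g` for a divisor of a multiple `m` of the polarisation: the
degrees, `g (r x) = m L x`, `r (g y) = m L y`. -/
structure Section (X Y : Cyc F) (m : ℕ) (r : X.W →ₗ[F] Y.W) (g : Y.W →ₗ[F] X.W) : Prop where
  r_mem (i : ℤ) (x : X.W) : x ∈ X.Ch i → r x ∈ Y.Ch i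
  g_mem (i : ℤ) (y : Y.W) : y ∈ Y.Ch i → g y ∈ X.Ch (i + 1)
  g_r (x : X.W) : g (r x) = (m : F) • X.L x
  r_g (y : Y.W) : r (g y) = (m : F) • Y.L y

/-- `Y` is a smooth hyperplane section of `X`: a smooth divisor in the class of `m` times the
polarisation of `X`, with the restricted polarisation. The maps `r` and `g` are the restriction of
cycles on `X` to `Y` and the push-forward of cycles on `Y` to `X`; they are adjoint for the height
pairings. -/
structure Hyper (X Y : Cyc F) where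
  dim_eq : X.dim = Y.dim + 1
  m : ℕ
  m_pos : 0 < m
  r : X.W →ₗ[F] Y.W
  g : Y.W →ₗ[F] X.W
  sec : Section X Y m r g
  adj (y : Y.W) (x : X.W) : X.ht (g y) x = Y.ht y (r x)

/-- the map `f` is a bijection from the cycles of codimension `i` on `X` to those of codimension `j`
on `Y` -/
def Bij {X Y : Cyc F} (f : X.W →ₗ[F] Y.W) (i j : ℤ) : Prop :=
  (∀ x ∈ X.Ch i, f x = 0 → x = 0) ∧ ∀ y ∈ Y.Ch j, ∃ x ∈ X.Ch i, f x = y

/-- The weak Lefschetz theorem in codimension `j`, where `2 * j < dim X`: the restriction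
`Ch^j(X)^0 → Ch^j(Y)^0` is bijective, and so is the push-forward
`Ch^c(Y)^0 → Ch^(c + 1)(X)^0`, `c = dim X - j`. -/
def Hyper.WL {X Y : Cyc F} (H : Hyper X Y) (j : ℕ) : Prop := ∀ c : ℕ, j + c = X.dim → j < c →
  Bij H.r j j ∧ Bij H.g c (c + 1)

namespace Hyper

variable {X Y : Cyc F} (H : Hyper X Y)

include H

lemma m_ne : (H.m : F) ≠ 0 := by
  have := charZero' F
  exact_mod_cast H.m_pos.ne'

lemma r_L (x : X.W) : H.r (X.L x) = Y.L (H.r x) := by
  have h : (H.m : F) • H.r (X.L x) = (H.m : F) • Y.L (H.r x) := by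
    rw [← map_smul, ← H.sec.g_r, H.sec.r_g]
  have h2 := congrArg (fun z => (H.m : F)⁻¹ • z) h
  simpa only [smul_smul, inv_mul_cancel₀ H.m_ne, one_smul] using h2

lemma g_L (y : Y.W) : H.g (Y.L y) = X.L (H.g y) := by
  have h : (H.m : F) • H.g (Y.L y) = (H.m : F) • X.L (H.g y) := by
    rw [← map_smul, ← H.sec.r_g, H.sec.g_r]
  have h2 := congrArg (fun z => (H.m : F)⁻¹ • z) h
  simpa only [smul_smul, inv_mul_cancel₀ H.m_ne, one_smul] using h2

lemma r_pow (k : ℕ) (x : X.W) : H.r ((X.L ^ k) x) = (Y.L ^ k) (H.r x) := by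
  induction k with
  | zero => simp
  | succ k ih => rw [pow_succ', Module.End.mul_apply, H.r_L, ih, pow_succ', Module.End.mul_apply]

lemma g_pow (k : ℕ) (y : Y.W) : H.g ((Y.L ^ k) y) = (X.L ^ k) (H.g y) := by
  induction k with
  | zero => simp
  | succ k ih => rw [pow_succ', Module.End.mul_apply, H.g_L, ih, pow_succ', Module.End.mul_apply]

/-- `m L ^ (k + 1) = g L ^ k r` -/
lemma g_pow_r (k : ℕ) (x : X.W) : H.g ((Y.L ^ k) (H.r x)) = (H.m : F) • (X.L ^ (k + 1)) x := by
  rw [H.g_pow, H.sec.g_r, map_smul, pow_succ, Module.End.mul_apply]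

lemma r_ker {x : X.W} (h : H.r x = 0) : X.L x = 0 := by
  have h1 := H.sec.g_r x
  rw [h, map_zero] at h1
  exact (smul_eq_zero.1 h1.symm).resolve_left H.m_ne

lemma g_ker {y : Y.W} (h : H.g y = 0) : Y.L y = 0 := by
  have h1 := H.sec.r_g y
  rw [h, map_zero] at h1
  exact (smul_eq_zero.1 h1.symm).resolve_left H.m_ne

/-- the height of a pushed-forward cycle -/
lemma ht_g (k : ℕ) (w : Y.W) :
    X.B (H.g w) ((X.L ^ k) (H.g w)) = (H.m : ℝ) * Y.B w ((Y.L ^ (k + 1)) w) := by
  have h1 : X.B (H.g w) ((X.L ^ k) (H.g w)) = Y.B w (H.r ((X.L ^ k) (H.g w))) := H.adj _ _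
  rw [h1, H.r_pow, H.sec.r_g, map_smul, B_smul_natCast, pow_succ, Module.End.mul_apply]

/-- the height of a restricted cycle -/
lemma ht_r (k : ℕ) (x : X.W) :
    Y.B (H.r x) ((Y.L ^ k) (H.r x)) = (H.m : ℝ) * X.B x ((X.L ^ (k + 1)) x) := by
  have h1 : X.B (H.g ((Y.L ^ k) (H.r x))) x = Y.B ((Y.L ^ k) (H.r x)) (H.r x) := H.adj _ _
  rw [Y.symm, ← h1, H.g_pow_r, X.symm, B_smul_natCast]

/-- **weak Lefschetz from hard Lefschetz and the Hodge index theorem on `X` and `Y`** -/
theorem WL_of {j : ℕ} (hX : HL X j) (hX' : HI X (j + 1)) (hY : HL Y j) (hY' : HI Y j) : H.WL j := by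
  intro c hc hjc
  obtain ⟨s, rfl⟩ := Nat.exists_eq_add_of_lt hjc
  have dX : s + 1 + 1 + 2 * j = X.dim + 1 := by omega
  have dY : s + 1 + 2 * j = Y.dim + 1 := by
    have := H.dim_eq
    omega
  have dX' : s + 2 * (j + 1) = X.dim + 1 := by omega
  obtain ⟨x1, x2⟩ := hX _ dX
  obtain ⟨y1, y2⟩ := hY _ dY
  have hginj : ∀ v ∈ Y.Ch ((j : ℤ) + (s + 1 : ℕ)), H.g v = 0 → v = 0 := by
    intro v hv hgv
    obtain ⟨w, hw, rfl⟩ := y2 v hv
    by_contra hv0
    have hw0 : w ≠ 0 := by
      rintro rfl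
      exact hv0 (map_zero _)
    have e1 : (Y.L ^ (s + 1 + 1)) w = 0 := by
      rw [pow_succ', Module.End.mul_apply]
      exact H.g_ker hgv
    have p1 := hY' _ dY w hw hw0 e1
    have hgw : H.g w ≠ 0 := by
      intro h0
      apply hv0
      rw [pow_succ, Module.End.mul_apply, H.g_ker h0, map_zero]
    have e2 : (X.L ^ (s + 1)) (H.g w) = 0 := by
      rw [← H.g_pow]
      exact hgv
    have p2 := hX' s dX' (H.g w) (mem_of_eq (by push_cast; ring) (H.sec.g_mem _ _ hw)) hgw e2
    simp only [Cyc.ht] at p1 p2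
    rw [H.ht_g, pow_succ] at p2
    have hm : (0 : ℝ) < H.m := by exact_mod_cast H.m_pos
    nlinarith [mul_pos hm p1]
  refine ⟨⟨?_, ?_⟩, ⟨?_, ?_⟩⟩
  · intro x hx hrx
    apply x1 x hx
    rw [pow_succ, Module.End.mul_apply, H.r_ker hrx, map_zero]
  · intro w hw
    obtain ⟨x, hx, hxe⟩ := x2 (H.g ((Y.L ^ (s + 1)) w))
      (mem_of_eq (by push_cast; ring) (H.sec.g_mem _ _ (pow_mem' hw (s + 1))))
    have e1 : H.g ((Y.L ^ (s + 1)) (w - (H.m : F)⁻¹ • H.r x)) = 0 := by
      rw [map_sub, map_sub, map_smul, map_smul, H.g_pow_r, smul_smul, inv_mul_cancel₀ H.m_ne,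
        one_smul, hxe, sub_self]
    have hmem : w - (H.m : F)⁻¹ • H.r x ∈ Y.Ch j :=
      Submodule.sub_mem _ hw (Submodule.smul_mem _ _ (H.sec.r_mem _ _ hx))
    have e2 := y1 _ hmem (hginj _ (pow_mem' hmem _) e1)
    refine ⟨(H.m : F)⁻¹ • x, Submodule.smul_mem _ _ hx, ?_⟩
    rw [map_smul]
    exact (sub_eq_zero.1 e2).symm
  · intro v hv
    exact hginj v (mem_of_eq (by push_cast; ring) hv)
  · intro z hz
    obtain ⟨x, hx, hxe⟩ := x2 z (mem_of_eq (by push_cast; ring) hz)
    refine ⟨(H.m : F)⁻¹ • (Y.L ^ (s + 1)) (H.r x), Submodule.smul_mem _ _ ?_, ?_⟩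
    · exact mem_of_eq (by push_cast; ring) (pow_mem' (H.sec.r_mem _ _ hx) (s + 1))
    · rw [map_smul, H.g_pow_r, smul_smul, inv_mul_cancel₀ H.m_ne, one_smul, hxe]

/-- **hard Lefschetz on `X` from weak Lefschetz and hard Lefschetz on `Y`** -/
theorem HL_of {j k : ℕ} (hk : k + 1 + 1 + 2 * j = X.dim + 1) (hW : H.WL j) (hY : HL Y j) :
    (∀ x ∈ X.Ch j, (X.L ^ (k + 1 + 1)) x = 0 → x = 0) ∧
      ∀ y ∈ X.Ch (j + (k + 1 + 1 : ℕ)), ∃ x ∈ X.Ch j, (X.L ^ (k + 1 + 1)) x = y := by
  obtain ⟨⟨r1, r2⟩, ⟨g1, g2⟩⟩ := hW (j + (k + 1)) (by omega) (by omega)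
  obtain ⟨y1, y2⟩ := hY (k + 1) (by have := H.dim_eq; omega)
  constructor
  · intro x hx h0
    apply r1 x hx
    have hr := H.sec.r_mem _ _ hx
    apply y1 _ hr
    apply g1 _ (mem_of_eq (by push_cast; ring) (pow_mem' hr (k + 1)))
    rw [H.g_pow_r, h0, smul_zero]
  · intro z hz
    obtain ⟨v, hv, rfl⟩ := g2 z (mem_of_eq (by push_cast; ring) hz)
    obtain ⟨w, hw, rfl⟩ := y2 v (mem_of_eq (by push_cast; ring) hv)
    obtain ⟨x, hx, rfl⟩ := r2 w hw
    refine ⟨(H.m : F) • x, Submodule.smul_mem _ _ hx, ?_⟩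
    rw [map_smul, H.g_pow_r]

/-- **the Hodge index theorem on `X` from weak Lefschetz and the Hodge index theorem on `Y`** -/
theorem HI_of {j k : ℕ} (hk : k + 1 + 2 * (j + 1) = X.dim + 1) (hW : H.WL j) (hY : HI Y (j + 1))
    (hinj : ∀ x ∈ X.Ch ((j + 1 : ℕ) : ℤ), H.r x = 0 → x = 0) :
    ∀ x ∈ X.Ch ((j + 1 : ℕ) : ℤ), x ≠ 0 → (X.L ^ (k + 1 + 1)) x = 0 →
      0 < (-1 : ℝ) ^ (j + 1) * X.ht x ((X.L ^ (k + 1)) x) := by
  intro x hx hx0 h0
  obtain ⟨-, ⟨g1, -⟩⟩ := hW (j + k + 2) (by omega) (by omega)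
  have hr := H.sec.r_mem _ _ hx
  have e1 : (Y.L ^ (k + 1)) (H.r x) = 0 := by
    apply g1 _ (mem_of_eq (by push_cast; ring) (pow_mem' hr (k + 1)))
    rw [H.g_pow_r, h0, smul_zero]
  have hrx : H.r x ≠ 0 := fun h => hx0 (hinj x hx h)
  have p := hY k (by have := H.dim_eq; omega) _ hr hrx e1
  simp only [Cyc.ht] at p ⊢
  rw [H.ht_r] at p
  have hm : (0 : ℝ) < H.m := by exact_mod_cast H.m_pos
  have p' : 0 < (H.m : ℝ) * ((-1 : ℝ) ^ (j + 1) * X.B x ((X.L ^ (k + 1)) x)) := by
    refine lt_of_lt_of_eq p ?_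
    ring
  exact pos_of_mul_pos_right p' hm.le

end Hyper

/-- A class of polarised varieties in which every variety of dimension at least `2` has a hyperplane
section. -/
def HasSections (C : Set (Cyc F)) : Prop := ∀ X ∈ C, 2 ≤ X.dim → ∃ Y ∈ C, Nonempty (Hyper X Y)

/-- the weak Lefschetz theorem for all the hyperplane sections in the class -/
def WeakLefschetz (C : Set (Cyc F)) : Prop := ∀ X ∈ C, ∀ Y ∈ C, ∀ H : Hyper X Y, ∀ j, H.WL j

/-- (Q1) in the middle: `L : Ch^a(Z)^0 → Ch^(a + 1)(Z)^0` is bijective for `Z` of dimension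
`2 * a` -/
def MiddleHL (C : Set (Cyc F)) : Prop := ∀ Z ∈ C, ∀ a : ℕ, Z.dim = 2 * a → HL Z a

/-- (Q2) in the middle: `(-1)^a (x, x) > 0` for nonzero `x` in `Ch^a(Z)^0` killed by `L`, for `Z` of
dimension `2 * a - 1` -/
def MiddleHI (C : Set (Cyc F)) : Prop := ∀ Z ∈ C, ∀ a : ℕ, Z.dim + 1 = 2 * a → HI Z a

theorem both_iff {C : Set (Cyc F)} (hC : HasSections C) :
    Both C ↔ WeakLefschetz C ∧ MiddleHL C ∧ MiddleHI C := by
  constructor
  · intro h
    exact ⟨fun X hX Y hY H j =>
      H.WL_of (h X hX j).1 (h X hX (j + 1)).2 (h Y hY j).1 (h Y hY j).2,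
      fun Z hZ a _ => (h Z hZ a).1, fun Z hZ a _ => (h Z hZ a).2⟩
  · rintro ⟨hW, hL, hI⟩
    have key : ∀ n : ℕ, ∀ X ∈ C, X.dim = n → ∀ i, HL X i ∧ HI X i := by
      intro n
      induction n with
      | zero =>
        intro X _ hd i
        constructor
        · intro k hk
          have hlow : ∀ x ∈ X.Ch i, x = 0 := by
            intro x hx
            rw [X.low _ (by omega), Submodule.mem_bot] at hx
            exact hx
          have hhigh : ∀ y ∈ X.Ch (i + k), y = 0 := by
            intro y hy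
            rw [X.high _ (by omega), Submodule.mem_bot] at hy
            exact hy
          exact ⟨fun x hx _ => hlow x hx, fun y hy => ⟨0, Submodule.zero_mem _, by
            rw [map_zero, hhigh y hy]⟩⟩
        · intro k hk x hx hx0
          rw [X.low _ (by omega), Submodule.mem_bot] at hx
          exact absurd hx hx0
      | succ n ih =>
        intro X hX hd i
        rcases Nat.eq_zero_or_pos i with rfl | hi
        · constructor
          · intro k hk
            refine ⟨fun x hx _ => ?_, fun y hy => ⟨0, Submodule.zero_mem _, ?_⟩⟩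
            · rw [X.low _ (by simp), Submodule.mem_bot] at hx
              exact hx
            · rw [X.high _ (by push_cast; omega), Submodule.mem_bot] at hy
              rw [map_zero, hy]
          · intro k hk x hx hx0
            rw [X.low _ (by simp), Submodule.mem_bot] at hx
            exact absurd hx hx0
        · obtain ⟨j, rfl⟩ := Nat.exists_eq_add_of_lt hi
          rw [zero_add]
          rcases Nat.eq_zero_or_pos n with rfl | hn
          · -- curves
            constructor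
            · intro k hk
              obtain rfl : k = 0 := by omega
              refine ⟨fun x _ hx0 => by simpa using hx0, fun y hy => ⟨y, by simpa using hy, by simp⟩⟩
            · by_cases h2 : X.dim + 1 = 2 * (j + 1)
              · exact hI X hX _ h2
              · intro k hk
                omega
          · obtain ⟨Y, hY, ⟨H⟩⟩ := hC X hX (by omega)
            have hYd : Y.dim = n := by
              have := H.dim_eq
              omega
            have hYi := ih Y hY hYd
            have hXY := hW X hX Y hY H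
            constructor
            · intro k hk
              rcases Nat.eq_zero_or_pos k with rfl | hk0
              · exact ⟨fun x _ hx0 => by simpa using hx0,
                  fun y hy => ⟨y, by simpa using hy, by simp⟩⟩
              · rcases Nat.lt_or_ge 1 k with hk1 | hk1
                · obtain ⟨s, rfl⟩ : ∃ s, k = s + 1 + 1 := ⟨k - 2, by omega⟩
                  exact H.HL_of hk (hXY _) (hYi _).1
                · obtain rfl : k = 1 := by omega
                  exact hL X hX (j + 1) (by omega) 1 hk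
            · intro k hk
              rcases Nat.eq_zero_or_pos k with rfl | hk0
              · exact hI X hX (j + 1) (by omega) 0 hk
              · obtain ⟨s, rfl⟩ : ∃ s, k = s + 1 := ⟨k - 1, by omega⟩
                refine H.HI_of hk (hXY _) (hYi _).2 fun x hx hrx => ?_
                rcases Nat.eq_zero_or_pos s with rfl | hs
                · refine (hL X hX (j + 1) (by omega) 1 (by omega)).1 x hx ?_
                  rw [pow_one]
                  exact H.r_ker hrx
                · exact (hXY (j + 1) (j + 1 + s) (by omega) (by omega)).1.1 x hx hrx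
    exact fun X hX i => key X.dim X hX rfl i

end Pool.Agent.K6.H99.AHI
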