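import Pool.Agent.K6.H99.AHI.Ops

/-!
# Beilinson's conjectures and the middle codimension
-/

set_option autoImplicit false

namespace Pool.Agent.K6.H99.AHI

open Finset

variable {F : Type} [Field F] [Algebra F ℝ]

/-! ## One variety and its products -/

lemma onto_down {X Y Z : Cyc F} (T : Times X Y Z) {i : ℤ}
    (h : ∀ y ∈ Z.Ch (i + Y.dim + 1), ∃ w ∈ Z.Ch (i + Y.dim), Z.L w = y) :
    ∀ y ∈ X.Ch (i + Y.dim + 1), ∃ x ∈ X.Ch i, (X.L ^ (Y.dim + 1)) x = y := by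
  intro y hy
  obtain ⟨w, hw, hwy⟩ := h _ (T.p_mem _ _ hy)
  have h1 : ∀ j < Y.dim, X.L (T.q ((T.M ^ j) w)) + T.q ((T.M ^ (j + 1)) w) = 0 := by
    intro j hj
    rw [T.coord, hwy, T.below _ _ hj]
  have h2 := rec_neg (g := fun j => T.q ((T.M ^ j) w)) h1 Y.dim le_rfl
  have h3 := T.coord Y.dim w
  rw [hwy, T.top, T.nil, map_zero, add_zero] at h3
  have h4 : (Y.deg : F) • y = (-1 : F) ^ Y.dim • (X.L ^ (Y.dim + 1)) (T.q w) := by
    rw [← h3]
    have h5 : T.q ((T.M ^ Y.dim) w) = (-1 : F) ^ Y.dim • (X.L ^ Y.dim) (T.q w) := by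
      simpa using h2
    rw [h5, map_smul, pow_succ' X.L, Module.End.mul_apply]
  refine ⟨((Y.deg : F)⁻¹ * (-1) ^ Y.dim) • T.q w, ?_, ?_⟩
  · refine Submodule.smul_mem _ _ ?_
    have := T.q_M_mem hw 0
    simpa using this
  · rw [map_smul, mul_smul, ← h4, smul_smul, inv_mul_cancel₀ (deg_ne Y), one_smul]

lemma ker_lift {X Y Z : Cyc F} (T : Times X Y Z) (hG : T.Gen) {z : Z.W} (hz : Z.L z = 0) :
    z = T.lift (T.q z) ∧ (X.L ^ (Y.dim + 1)) (T.q z) = 0 := by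
  have h1 : ∀ j < Y.dim, X.L (T.q ((T.M ^ j) z)) + T.q ((T.M ^ (j + 1)) z) = 0 := by
    intro j _
    rw [T.coord, hz, map_zero, map_zero]
  have h2 := rec_neg (g := fun j => T.q ((T.M ^ j) z)) h1
  simp only [pow_zero, Module.End.one_apply] at h2
  constructor
  · conv_lhs => rw [hG z]
    unfold Times.lift
    exact T.asm_congr (g := fun j => T.q ((T.M ^ j) z)) h2
  · have h3 := T.coord Y.dim z
    rw [hz, T.nil, map_zero, map_zero, map_zero, add_zero, h2 Y.dim le_rfl, map_smul,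
      ← Module.End.mul_apply, ← pow_succ'] at h3
    exact (smul_eq_zero.1 h3).resolve_left (pow_ne_zero _ (neg_ne_zero.2 one_ne_zero))

lemma sign_aux (i m d : ℕ) (b : ℝ) : (-1 : ℝ) ^ (i + m) * (((m + 1 : ℕ) : ℝ) * d * (-1) ^ m * b) =
    ((m + 1 : ℕ) : ℝ) * d * ((-1) ^ i * b) := by
  have : (-1 : ℝ) ^ m * (-1) ^ m = 1 := by
    rw [← mul_pow]
    norm_num
  rw [pow_add]
  linear_combination (((m + 1 : ℕ) : ℝ) * d * ((-1) ^ i * b)) * this

theorem HI_iff_middle {X Y Z : Cyc F} (T : Times X Y Z) (hG : T.Gen) {i : ℕ}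
    (h : Y.dim + 2 * i = X.dim + 1) : HI X i ↔ HI Z (i + Y.dim) := by
  have hpos : (0 : ℝ) < ((Y.dim + 1 : ℕ) : ℝ) * Y.deg :=
    mul_pos (by positivity) (by exact_mod_cast Y.deg_pos)
  constructor
  · intro hX k hk z hz hz0 hLz
    obtain rfl : k = 0 := by rw [T.dim_eq] at hk; omega
    rw [zero_add, pow_one] at hLz
    obtain ⟨e1, e2⟩ := ker_lift T hG hLz
    have hx0 : T.q z ≠ 0 := by
      intro h0
      rw [h0] at e1
      apply hz0
      rw [e1]
      simp [Times.lift, Times.asm]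
    have h1 := hX Y.dim h (T.q z) (mem_of_eq (by push_cast; ring) (T.q_mem _ _ hz)) hx0 e2
    simp only [Cyc.ht] at h1 ⊢
    rw [pow_zero, Module.End.one_apply, e1, T.B_lift, sign_aux]
    exact mul_pos hpos h1
  · intro hZ k hk x hx hx0 hLx
    obtain rfl : k = Y.dim := by omega
    have h1 := hZ 0 (by rw [T.dim_eq]; omega) (T.lift x)
      (mem_of_eq (by push_cast; ring) (T.lift_mem hx)) (T.lift_ne hx0)
      (by rw [zero_add, pow_one]; exact T.L_lift hLx)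
    simp only [Cyc.ht] at h1 ⊢
    rw [pow_zero, Module.End.one_apply, T.B_lift, sign_aux] at h1
    exact pos_of_mul_pos_right h1 hpos.le

theorem HL_iff_middle {X Y Z : Cyc F} (T : Times X Y Z) (hG : T.Gen) {i : ℕ}
    (h : Y.dim + 2 * i = X.dim) : HL X i ↔ HL Z (i + Y.dim) := by
  constructor
  · intro hX k hk
    obtain rfl : k = 1 := by rw [T.dim_eq] at hk; omega
    obtain ⟨h1, h2⟩ := hX (Y.dim + 1) (by omega)
    constructor
    · intro z hz hLz
      rw [pow_one] at hLz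
      obtain ⟨e1, e2⟩ := ker_lift T hG hLz
      have hx0 : T.q z = 0 := h1 _ (mem_of_eq (by push_cast; ring) (T.q_mem _ _ hz)) e2
      rw [e1, hx0]
      simp [Times.lift, Times.asm]
    · intro y hy
      set t : ℕ → X.W := fun j => T.q ((T.M ^ j) y) with ht
      set c : ℕ → X.W := fun j => Nat.rec 0 (fun j w => t j - X.L w) j with hc
      have hcs : ∀ j, c (j + 1) = t j - X.L (c j) := fun j => rfl
      have hy' : y ∈ Z.Ch (((i : ℤ) + 1) + Y.dim) := mem_of_eq (by push_cast; ring) hy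
      have htm : ∀ j : ℕ, t j ∈ X.Ch ((i : ℤ) + 1 + j) := fun j => T.q_M_mem hy' j
      have hcm : ∀ j : ℕ, c j ∈ X.Ch ((i : ℤ) + j) := by
        intro j
        induction j with
        | zero => exact Submodule.zero_mem _
        | succ j ih =>
          rw [hcs]
          refine Submodule.sub_mem _ (mem_of_eq (by push_cast; ring) (htm j)) ?_
          exact mem_of_eq (by push_cast; ring) (X.maps _ _ ih)
      have hT : (-1 : F) ^ Y.dim • (t Y.dim - X.L (c Y.dim)) ∈ X.Ch ((i : ℤ) + (Y.dim + 1 : ℕ)) := by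
        refine Submodule.smul_mem _ _ (Submodule.sub_mem _ ?_ ?_)
        · exact mem_of_eq (by push_cast; ring) (htm Y.dim)
        · exact mem_of_eq (by push_cast; ring) (X.maps _ _ (hcm Y.dim))
      obtain ⟨x, hx, hxe⟩ := h2 _ hT
      refine ⟨T.asm fun j => c j + (-1 : F) ^ j • (X.L ^ j) x, ?_, ?_⟩
      · refine mem_of_eq (by push_cast; ring) (T.asm_mem (i := (i : ℤ)) fun j _ => ?_)
        exact Submodule.add_mem _ (hcm j) (Submodule.smul_mem _ _ (pow_mem' hx j))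
      · have h3 : Z.L (T.asm fun j => c j + (-1 : F) ^ j • (X.L ^ j) x) = T.asm t := by
          refine T.L_asm (fun j _ => ?_) ?_
          · rw [hcs, map_add, map_smul, ← Module.End.mul_apply, ← pow_succ', pow_succ (-1 : F),
              mul_neg_one, neg_smul]
            abel
          · rw [map_add, map_smul, ← Module.End.mul_apply, ← pow_succ', hxe, smul_smul, ← mul_pow]
            norm_num
        rw [pow_one, h3]
        exact (hG y).symm
  · intro hZ k hk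
    obtain rfl : k = Y.dim + 1 := by omega
    obtain ⟨h1, h2⟩ := hZ 1 (by rw [T.dim_eq]; omega)
    constructor
    · intro x hx hLx
      by_contra hx0
      refine T.lift_ne hx0 (h1 _ (mem_of_eq (by push_cast; ring) (T.lift_mem hx)) ?_)
      rw [pow_one]
      exact T.L_lift hLx
    · intro y hy
      refine onto_down T (i := (i : ℤ)) (fun y hy => ?_) y (mem_of_eq (by push_cast; ring) hy)
      obtain ⟨w, hw, hwy⟩ := h2 y (mem_of_eq (by push_cast; ring) hy)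
      exact ⟨w, mem_of_eq (by push_cast; ring) hw, by simpa using hwy⟩

lemma surj_down {X Y Z : Cyc F} (T : Times X Y Z) {i : ℤ} {k : ℕ}
    (h : ∀ y ∈ Z.Ch (i + k + Y.dim), ∃ w ∈ Z.Ch i, (Z.L ^ (k + Y.dim)) w = y) :
    ∀ y ∈ X.Ch (i + k), ∃ x ∈ X.Ch i, (X.L ^ k) x = y := by
  intro y hy
  obtain ⟨w, hw, hwy⟩ := h _ (T.M_pow_mem (T.p_mem _ _ hy) Y.dim)
  have h1 : (Y.deg : F) • y = (X.L ^ k) (∑ s ∈ range (Y.dim + 1),
      ((k + Y.dim).choose (k + s) : F) • (X.L ^ s) (T.q ((T.M ^ (Y.dim - s)) w))) := by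
    rw [← T.top, ← hwy, T.q_L_pow, show k + Y.dim + 1 = k + (Y.dim + 1) by ring, sum_range_add,
      sum_eq_zero, zero_add, map_sum]
    · refine sum_congr rfl fun s _ => ?_
      rw [show k + Y.dim - (k + s) = Y.dim - s by omega, map_smul, pow_add, Module.End.mul_apply]
    · intro r hr
      rw [mem_range] at hr
      rw [T.M_pow_zero (by omega)]
      simp
  refine ⟨(Y.deg : F)⁻¹ • ∑ s ∈ range (Y.dim + 1),
      ((k + Y.dim).choose (k + s) : F) • (X.L ^ s) (T.q ((T.M ^ (Y.dim - s)) w)), ?_, ?_⟩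
  · refine Submodule.smul_mem _ _ (Submodule.sum_mem _ fun s hs => Submodule.smul_mem _ _ ?_)
    rw [mem_range] at hs
    refine mem_of_eq ?_ (pow_mem' (T.q_mem _ _ (T.M_pow_mem hw (Y.dim - s))) s)
    rw [Nat.cast_sub (by omega)]
    ring
  · rw [map_smul, ← h1, smul_smul, inv_mul_cancel₀ (deg_ne Y), one_smul]

lemma nondeg_down {X Y Z : Cyc F} (T : Times X Y Z) {i k d : ℕ} (hY : Y.dim = k + 2 * d)
    (h : Nondeg Z (i + k + d)) : ∀ y ∈ X.Ch (i + k), y ≠ 0 → ∃ x ∈ X.Ch i, X.B y x ≠ 0 := by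
  intro y hy hy0
  have h1 : (T.M ^ d) (T.p y) ≠ 0 := by
    intro h0
    have h2 := T.top y
    rw [show Y.dim = (k + d) + d by omega, pow_add, Module.End.mul_apply, h0, map_zero,
      map_zero] at h2
    exact smul_ne_zero (deg_ne Y) hy0 h2.symm
  obtain ⟨w, hw, hwB⟩ := h _ (mem_of_eq (by push_cast; ring) (T.M_pow_mem (T.p_mem _ _ hy) d)) h1
  simp only [Cyc.ht] at hwB
  rw [T.M_adj_pow, T.p_adj] at hwB
  refine ⟨_, mem_of_eq ?_ (T.q_mem _ _ (T.M_pow_mem hw d)), hwB⟩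
  rw [hY]
  push_cast
  ring

/-! ## A class of varieties -/

lemma definite_of_HI {Z : Cyc F} {a : ℕ} (ha : Z.dim + 1 = 2 * a) (h : HI Z a) : Definite Z a := by
  intro x hx y hy hx0 hy0 hLx hLy
  have h1 := h 0 (by omega) x hx hx0 (by rw [zero_add, pow_one]; exact hLx)
  have h2 := h 0 (by omega) y hy hy0 (by rw [zero_add, pow_one]; exact hLy)
  rw [pow_zero, Module.End.one_apply] at h1 h2
  have h3 := mul_pos h1 h2
  have h4 : (-1 : ℝ) ^ a * (-1) ^ a = 1 := by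
    rw [← mul_pow]
    norm_num
  have h5 : (-1 : ℝ) ^ a * Z.ht x x * ((-1) ^ a * Z.ht y y) = Z.ht x x * Z.ht y y := by
    linear_combination (Z.ht x x * Z.ht y y) * h4
  rwa [h5] at h3

theorem HI_of_definite {C : Set (Cyc F)} (hC : Closed C) {S : Set ℕ} (hS : S.Infinite)
    (h : ∀ a ∈ S, ∀ Z ∈ C, Z.dim + 1 = 2 * a → Definite Z a) : ∀ X ∈ C, ∀ i, HI X i := by
  intro X hX i k hk x hx hx0 hLx
  have hi : 1 ≤ i := by
    rcases Nat.eq_zero_or_pos i with rfl | hi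
    · rw [X.low _ (by simp), Submodule.mem_bot] at hx
      exact absurd hx hx0
    · exact hi
  obtain ⟨E, hE, hEd, e, he, hLe, heB⟩ := hC.sign i hi
  have he0 : e ≠ 0 := by
    rintro rfl
    simp [Cyc.ht] at heB
  obtain ⟨Z₁, hZ₁, ⟨T₁⟩, ⟨T₁'⟩⟩ := hC.mul X E hX hE
  obtain ⟨a, haS, ha⟩ := hS.exists_gt (i + (k + E.dim))
  obtain ⟨d, rfl⟩ := Nat.exists_eq_add_of_lt ha
  obtain ⟨Y₂, hY₂, hd₂⟩ := hC.dims (d + 1)
  obtain ⟨Z₂, hZ₂, ⟨T₂⟩, -⟩ := hC.mul Z₁ Y₂ hZ₁ hY₂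
  obtain ⟨Y₃, hY₃, hd₃⟩ := hC.dims (k + E.dim + Y₂.dim)
  obtain ⟨Z₃, hZ₃, ⟨T₃⟩, -⟩ := hC.mul Z₂ Y₃ hZ₂ hY₃
  have dX : 0 + X.dim = k + E.dim := by omega
  have hdim : Z₃.dim + 1 = 2 * (i + (k + E.dim) + d + 1) := by
    rw [T₃.dim_eq, T₂.dim_eq, T₁.dim_eq, hd₃, hd₂]
    omega
  -- the cycle `x`
  have x1 := T₁.pull_prim hLx
  have x1' := T₁.pull_height hLx
  have x2 := T₂.pull_prim x1
  have x2' := T₂.pull_height x1
  have x3 := T₃.L_lift (x := T₂.p (T₁.p x)) (by rw [hd₃]; exact x2)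
  have x3' := T₃.B_lift (T₂.p (T₁.p x))
  have x0 := T₃.lift_ne (T₂.p_ne (T₁.p_ne hx0))
  have xm := T₃.lift_mem (T₂.p_mem _ _ (T₁.p_mem _ _ hx))
  -- the cycle `e`
  have hLe' : (E.L ^ (0 + 1)) e = 0 := by rw [zero_add, pow_one]; exact hLe
  have e1 := T₁'.pull_prim hLe'
  have e1' := T₁'.pull_height hLe'
  rw [dX] at e1 e1'
  have e2 := T₂.pull_prim e1
  have e2' := T₂.pull_height e1
  have e3 := T₃.L_lift (x := T₂.p (T₁'.p e)) (by rw [hd₃]; exact e2)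
  have e3' := T₃.B_lift (T₂.p (T₁'.p e))
  have e0 := T₃.lift_ne (T₂.p_ne (T₁'.p_ne he0))
  have em := T₃.lift_mem (T₂.p_mem _ _ (T₁'.p_mem _ _ he))
  have hmem : (i : ℤ) + Y₃.dim = ((i + (k + E.dim) + d + 1 : ℕ) : ℤ) := by
    rw [hd₃, hd₂]
    push_cast
    ring
  have key := h _ haS Z₃ hZ₃ hdim _ (mem_of_eq hmem xm) _ (mem_of_eq hmem em) x0 e0 x3 e3
  simp only [Cyc.ht] at key heB ⊢
  rw [x3', e3', hd₃, x2', e2', x1', e1', pow_zero, Module.End.one_apply] at key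
  set s : ℝ := (-1) ^ (k + E.dim + Y₂.dim) with hs
  have hss : s * s = 1 := by
    rw [hs, ← mul_pow]
    norm_num
  have c1 : (0 : ℝ) < ((k + E.dim).choose k : ℝ) := by exact_mod_cast Nat.choose_pos (by omega)
  have c2 : (0 : ℝ) < ((k + E.dim + Y₂.dim).choose (k + E.dim) : ℝ) := by
    exact_mod_cast Nat.choose_pos (by omega)
  have c3 : (0 : ℝ) < ((k + E.dim + Y₂.dim + 1 : ℕ) : ℝ) := by exact_mod_cast Nat.succ_pos _
  have p1 : (0 : ℝ) < X.deg := by exact_mod_cast X.deg_pos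
  have p2 : (0 : ℝ) < E.deg := by exact_mod_cast E.deg_pos
  have p3 : (0 : ℝ) < Y₂.deg := by exact_mod_cast Y₂.deg_pos
  have p4 : (0 : ℝ) < Y₃.deg := by exact_mod_cast Y₃.deg_pos
  have c5 : ((k + E.dim).choose 0 : ℝ) = 1 := by simp
  rw [c5] at key
  set u := X.B x ((X.L ^ k) x) with hu
  set v := E.B e e with hv
  set P : ℝ := (((k + E.dim + Y₂.dim + 1 : ℕ) : ℝ) * Y₃.deg) ^ 2 *
    (((k + E.dim + Y₂.dim).choose (k + E.dim) : ℝ) * Y₂.deg) ^ 2 *
    (((k + E.dim).choose k : ℝ) * E.deg * X.deg) with hP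
  have hPpos : 0 < P := by positivity
  have hkey : 0 < P * (u * v) := by
    have : P * (u * v) = (s * s) * (P * (u * v)) := by rw [hss, one_mul]
    rw [this]
    refine lt_of_lt_of_eq key ?_
    rw [hP]
    ring
  have huv : 0 < u * v := pos_of_mul_pos_right hkey hPpos.le
  have hv2 : 0 < v * v := by
    have hv0 : v ≠ 0 := by
      intro h0
      rw [h0] at huv
      simp at huv
    exact mul_self_pos.2 hv0
  have h6 : 0 < ((-1 : ℝ) ^ i * v) * (u * v) := mul_pos heB huv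
  have h7 : ((-1 : ℝ) ^ i * v) * (u * v) = ((-1) ^ i * u) * (v * v) := by ring
  rw [h7] at h6
  exact pos_of_mul_pos_left h6 hv2.le

lemma inj_of_HI {X : Cyc F} {i k : ℕ} (hk : k + 2 * i = X.dim + 1) (h : HI X i) :
    ∀ x ∈ X.Ch i, (X.L ^ k) x = 0 → x = 0 := by
  intro x hx hLx
  by_contra hx0
  have := h k hk x hx hx0 (by rw [pow_succ', Module.End.mul_apply, hLx, map_zero])
  simp only [Cyc.ht] at this
  rw [hLx, map_zero, mul_zero] at this
  exact lt_irrefl _ this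

theorem surj_of_onto {C : Set (Cyc F)} (hC : Closed C) {S : Set ℕ} (hS : S.Infinite)
    (h : ∀ a ∈ S, ∀ Z ∈ C, Z.dim = 2 * a → Onto Z a) {X : Cyc F} (hX : X ∈ C) {i k : ℕ}
    (hk : k + 2 * i = X.dim + 1) : ∀ y ∈ X.Ch (i + k), ∃ x ∈ X.Ch i, (X.L ^ k) x = y := by
  obtain ⟨a, haS, ha⟩ := hS.exists_gt (i + k)
  obtain ⟨d, rfl⟩ := Nat.exists_eq_add_of_lt ha
  obtain ⟨Y₁, hY₁, hd₁⟩ := hC.dims (d + 2)
  obtain ⟨Z₁, hZ₁, ⟨T₁⟩, -⟩ := hC.mul X Y₁ hX hY₁
  obtain ⟨Y₂, hY₂, hd₂⟩ := hC.dims (k + d + 1)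
  obtain ⟨Z₂, hZ₂, ⟨T₂⟩, -⟩ := hC.mul Z₁ Y₂ hZ₁ hY₂
  have h1 : Onto Z₂ (i + k + d + 1) := by
    refine h _ haS _ hZ₂ ?_
    rw [T₂.dim_eq, T₁.dim_eq, hd₂, hd₁]
    omega
  refine surj_down T₁ fun y hy => ?_
  have h2 := onto_down T₂ (i := (i : ℤ)) (fun y hy => ?_) y
    (mem_of_eq (by rw [hd₁, hd₂]; push_cast; ring) hy)
  · rw [hd₂] at h2
    rw [hd₁, show k + (d + 2) = k + d + 1 + 1 by ring]
    exact h2
  · obtain ⟨w, hw, hwy⟩ := h1 y (mem_of_eq (by rw [hd₂]; push_cast; ring) hy)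
    exact ⟨w, mem_of_eq (by rw [hd₂]; push_cast; ring) hw, hwy⟩

/-! ## Real coefficients -/

lemma isotropic (Z : Cyc ℝ) {x y : Z.W} (hx : 0 < Z.B x x) (hy : Z.B y y < 0) :
    ∃ t : ℝ, x + t • y ≠ 0 ∧ Z.B (x + t • y) (x + t • y) = 0 := by
  set a := Z.B y y with ha
  set b := Z.B x y with hb
  set c := Z.B x x with hc
  have hpos : 0 ≤ b ^ 2 - a * c := by nlinarith [sq_nonneg b, mul_pos hx (neg_pos.2 hy)]
  set s := Real.sqrt (b ^ 2 - a * c) with hs
  have hss : s ^ 2 = b ^ 2 - a * c := Real.sq_sqrt hpos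
  have ha0 : a ≠ 0 := hy.ne
  refine ⟨(-b - s) / a, ?_, ?_⟩
  · intro h0
    have h1 : x = -(((-b - s) / a) • y) := eq_neg_of_add_eq_zero_left h0
    have h2 : c = ((-b - s) / a) ^ 2 * a := by
      rw [hc, ha]
      conv_lhs => rw [h1]
      simp only [map_neg, LinearMap.neg_apply, map_smul, LinearMap.smul_apply, smul_eq_mul]
      ring
    have h3 : ((-b - s) / a) ^ 2 * a ≤ 0 := mul_nonpos_of_nonneg_of_nonpos (sq_nonneg _) hy.le
    linarith
  · have h1 : Z.B y x = b := by rw [Z.symm]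
    simp only [map_add, LinearMap.add_apply, map_smul, LinearMap.smul_apply, smul_eq_mul]
    rw [h1, ← ha, ← hb, ← hc]
    field_simp
    linear_combination hss

lemma definite_of_aniso {Z : Cyc ℝ} {a : ℕ} (h : Aniso Z a) : Definite Z a := by
  have key : ∀ x ∈ Z.Ch a, ∀ y ∈ Z.Ch a, Z.L x = 0 → Z.L y = 0 → 0 < Z.B x x → Z.B y y < 0 →
      False := by
    intro x hx y hy hLx hLy h1 h2
    obtain ⟨t, ht, hB⟩ := isotropic Z h1 h2
    refine h _ (Submodule.add_mem _ hx (Submodule.smul_mem _ t hy)) ht ?_ hB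
    rw [map_add, map_smul, hLx, hLy, smul_zero, add_zero]
  intro x hx y hy hx0 hy0 hLx hLy
  rcases lt_or_gt_of_ne (h x hx hx0 hLx) with h1 | h1 <;>
    rcases lt_or_gt_of_ne (h y hy hy0 hLy) with h2 | h2
  · exact mul_pos_of_neg_of_neg h1 h2
  · exact (key y hy x hx hLy hLx h2 h1).elim
  · exact (key x hx y hy hLx hLy h1 h2).elim
  · exact mul_pos h1 h2

/-- hard Lefschetz and the Hodge index theorem imply that the pairing is nondegenerate -/
lemma nondeg_of_both {X : Cyc F} (h1 : ∀ i, HL X i) (h2 : ∀ i, HI X i) (i : ℕ) :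
    ∀ k : ℕ, k + 2 * i = X.dim + 1 → ∀ y ∈ X.Ch i, (∀ v ∈ X.Ch (i + k), X.B y v = 0) → y = 0 := by
  induction i with
  | zero =>
    intro k _ y hy _
    rw [X.low _ (by simp), Submodule.mem_bot] at hy
    exact hy
  | succ i ih =>
    intro k hk y hy hB
    obtain ⟨y', hy', hyy⟩ := (h1 i (k + 2) (by omega)).2 ((X.L ^ (k + 1)) y)
      (mem_of_eq (by push_cast; ring) (pow_mem' hy (k + 1)))
    have hLy' : X.L y' ∈ X.Ch ((i + 1 : ℕ) : ℤ) := mem_of_eq (by push_cast; ring) (X.maps _ _ hy')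
    have hp : y - X.L y' ∈ X.Ch ((i + 1 : ℕ) : ℤ) := Submodule.sub_mem _ hy hLy'
    have hLp : (X.L ^ (k + 1)) (y - X.L y') = 0 := by
      rw [map_sub, ← hyy, ← Module.End.mul_apply, ← pow_succ, sub_self]
    have e1 : X.B y ((X.L ^ k) (y - X.L y')) = 0 := hB _ (pow_mem' hp k)
    have e2 : X.B (X.L y') ((X.L ^ k) (y - X.L y')) = 0 := by
      rw [X.adj, ← Module.End.mul_apply, ← pow_succ', hLp, map_zero]
    have e3 : X.B (y - X.L y') ((X.L ^ k) (y - X.L y')) = 0 := by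
      rw [map_sub X.B, LinearMap.sub_apply, e1, e2, sub_zero]
    have hyL : y = X.L y' := by
      by_contra hne
      have h4 := h2 (i + 1) k hk _ hp (sub_ne_zero.2 hne) hLp
      simp only [Cyc.ht] at h4
      rw [e3, mul_zero] at h4
      exact lt_irrefl _ h4
    have hy0 : y' = 0 := by
      refine ih (k + 2) (by omega) y' hy' fun v hv => ?_
      obtain ⟨v', hv', hvv⟩ := (h1 i (k + 2) (by omega)).2 v hv
      rw [← hvv, show k + 2 = 1 + (k + 1) by ring, pow_add, Module.End.mul_apply, pow_one, ← X.adj,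
        ← hyL]
      exact hB _ (mem_of_eq (by push_cast; ring) (pow_mem' hv' (k + 1)))
    rw [hyL, hy0, map_zero]

lemma surj_of_nondeg {X : Cyc ℝ} (hf : ∀ i, Module.Finite ℝ (X.Ch i)) {i k : ℕ}
    (hinj : ∀ x ∈ X.Ch i, (X.L ^ k) x = 0 → x = 0)
    (hsep : ∀ y ∈ X.Ch (i + k), y ≠ 0 → ∃ x ∈ X.Ch i, X.B y x ≠ 0) :
    ∀ y ∈ X.Ch (i + k), ∃ x ∈ X.Ch i, (X.L ^ k) x = y := by
  have := hf i
  have := hf (i + k)
  set f : X.Ch i →ₗ[ℝ] X.Ch (i + k) := (X.L ^ k).restrict fun x hx => pow_mem' hx k with hfdef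
  have hfi : Function.Injective f := by
    rw [← LinearMap.ker_eq_bot, LinearMap.ker_eq_bot']
    intro x hx
    apply Subtype.ext
    exact hinj x x.2 (congrArg Subtype.val hx)
  set φ : X.Ch (i + k) →ₗ[ℝ] Module.Dual ℝ (X.Ch i) :=
    (LinearMap.lcomp ℝ ℝ (X.Ch i).subtype) ∘ₗ (X.B ∘ₗ (X.Ch (i + k)).subtype) with hφ
  have hφi : Function.Injective φ := by
    rw [← LinearMap.ker_eq_bot, LinearMap.ker_eq_bot']
    intro y hy
    by_contra hy0
    obtain ⟨x, hx, hB⟩ := hsep y y.2 (fun h => hy0 (Subtype.ext h))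
    exact hB (congrArg (fun ψ : Module.Dual ℝ (X.Ch i) => ψ ⟨x, hx⟩) hy)
  have d1 := LinearMap.finrank_le_finrank_of_injective hfi
  have d2 := LinearMap.finrank_le_finrank_of_injective hφi
  rw [Subspace.dual_finrank_eq] at d2
  have hfs := (LinearMap.injective_iff_surjective_of_finrank_eq_finrank (le_antisymm d1 d2)).1 hfi
  intro y hy
  obtain ⟨x, hx⟩ := hfs ⟨y, hy⟩
  exact ⟨x, x.2, congrArg Subtype.val hx⟩

end Pool.Agent.K6.H99.AHI
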