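import Pool.Agent.K6.H99.AHI.Defs

/-!
# Computations on a product
-/

set_option autoImplicit false

namespace Pool.Agent.K6.H99.AHI

open Finset

variable {F : Type} [Field F] [Algebra F ℝ]

lemma mem_of_eq {X : Cyc F} {i j : ℤ} {x : X.W} (h : i = j) (hx : x ∈ X.Ch i) : x ∈ X.Ch j :=
  h ▸ hx

lemma pow_mem' {X : Cyc F} {i : ℤ} {x : X.W} (hx : x ∈ X.Ch i) (k : ℕ) :
    (X.L ^ k) x ∈ X.Ch (i + k) := by
  induction k with
  | zero => simpa using hx
  | succ k ih =>
    rw [pow_succ', Module.End.mul_apply]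
    exact mem_of_eq (by push_cast; ring) (X.maps _ _ ih)

lemma adj_pow (X : Cyc F) (k : ℕ) (x y : X.W) : X.B ((X.L ^ k) x) y = X.B x ((X.L ^ k) y) := by
  induction k generalizing x y with
  | zero => simp
  | succ k ih =>
    rw [pow_succ', Module.End.mul_apply, X.adj, ih, ← pow_succ', pow_succ, Module.End.mul_apply]

lemma charZero' (F : Type) [Field F] [Algebra F ℝ] : CharZero F := (algebraMap F ℝ).charZero

lemma deg_ne (X : Cyc F) : (X.deg : F) ≠ 0 := by
  have := charZero' F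
  exact_mod_cast X.deg_pos.ne'

lemma B_smul_natCast (X : Cyc F) (n : ℕ) (x y : X.W) : X.B x ((n : F) • y) = (n : ℝ) * X.B x y := by
  rw [map_smul, Algebra.smul_def, map_natCast]

lemma rec_neg {X : Cyc F} {m : ℕ} {g : ℕ → X.W} (h : ∀ j < m, X.L (g j) + g (j + 1) = 0) :
    ∀ j ≤ m, g j = (-1 : F) ^ j • (X.L ^ j) (g 0) := by
  intro j
  induction j with
  | zero => intro _; simp
  | succ j ih =>
    intro hj
    have h1 := h j (by omega)
    rw [ih (by omega), map_smul, ← Module.End.mul_apply, ← pow_succ'] at h1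
    rw [pow_succ (-1 : F), mul_neg_one, neg_smul]
    exact (eq_neg_of_add_eq_zero_right h1)

namespace Times

variable {X Y Z : Cyc F} (T : Times X Y Z)

include T

lemma p_mem (i : ℤ) (x : X.W) : x ∈ X.Ch i → T.p x ∈ Z.Ch i := T.degrees.p_mem i x

lemma q_mem (i : ℤ) (z : Z.W) : z ∈ Z.Ch i → T.q z ∈ X.Ch (i - Y.dim) := T.degrees.q_mem i z

lemma M_mem (i : ℤ) (z : Z.W) : z ∈ Z.Ch i → T.M z ∈ Z.Ch (i + 1) := T.degrees.M_mem i z

lemma comm (z : Z.W) : Z.L (T.M z) = T.M (Z.L z) := T.polarised.comm z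

lemma nil (z : Z.W) : (T.M ^ (Y.dim + 1)) z = 0 := T.polarised.nil z

lemma L_p (x : X.W) : Z.L (T.p x) = T.p (X.L x) + T.M (T.p x) := T.polarised.L_p x

lemma q_L (z : Z.W) : T.q (Z.L z) = X.L (T.q z) + T.q (T.M z) := T.polarised.q_L z

lemma M_adj (z w : Z.W) : Z.B (T.M z) w = Z.B z (T.M w) := T.heights.M_adj z w

lemma p_adj (x : X.W) (z : Z.W) : Z.B (T.p x) z = X.B x (T.q z) := T.heights.p_adj x z

lemma top (x : X.W) : T.q ((T.M ^ Y.dim) (T.p x)) = (Y.deg : F) • x := T.heights.top x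

lemma below (k : ℕ) (x : X.W) : k < Y.dim → T.q ((T.M ^ k) (T.p x)) = 0 := T.heights.below k x

lemma M_pow_mem {i : ℤ} {z : Z.W} (hz : z ∈ Z.Ch i) (k : ℕ) : (T.M ^ k) z ∈ Z.Ch (i + k) := by
  induction k with
  | zero => simpa using hz
  | succ k ih =>
    rw [pow_succ', Module.End.mul_apply]
    exact mem_of_eq (by push_cast; ring) (T.M_mem _ _ ih)

lemma M_adj_pow (k : ℕ) (x y : Z.W) : Z.B ((T.M ^ k) x) y = Z.B x ((T.M ^ k) y) := by
  induction k generalizing x y with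
  | zero => simp
  | succ k ih =>
    rw [pow_succ', Module.End.mul_apply, T.M_adj, ih, ← pow_succ', pow_succ, Module.End.mul_apply]

lemma M_pow_zero {k : ℕ} (h : Y.dim < k) (z : Z.W) : (T.M ^ k) z = 0 := by
  obtain ⟨r, rfl⟩ := Nat.exists_eq_add_of_lt h
  rw [show Y.dim + r + 1 = r + (Y.dim + 1) by ring, pow_add, Module.End.mul_apply, T.nil, map_zero]

lemma commL : Commute (Z.L - T.M) T.M := by
  have : Commute Z.L T.M := by
    apply LinearMap.ext
    intro z
    exact T.comm z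
  exact this.sub_left (Commute.refl _)

lemma L_M_pow (k : ℕ) (z : Z.W) : Z.L ((T.M ^ k) z) = (T.M ^ k) (Z.L z) := by
  have : Commute Z.L T.M := by
    apply LinearMap.ext
    intro z
    exact T.comm z
  have h := congrArg (fun φ : Z.W →ₗ[F] Z.W => φ z) (this.pow_right k).eq
  exact h

lemma D_p (r : ℕ) (x : X.W) : ((Z.L - T.M) ^ r) (T.p x) = T.p ((X.L ^ r) x) := by
  induction r with
  | zero => simp
  | succ r ih =>
    rw [pow_succ', Module.End.mul_apply, ih, LinearMap.sub_apply, T.L_p, pow_succ',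
      Module.End.mul_apply]
    abel

lemma q_D (r : ℕ) (z : Z.W) : T.q (((Z.L - T.M) ^ r) z) = (X.L ^ r) (T.q z) := by
  induction r generalizing z with
  | zero => simp
  | succ r ih =>
    rw [pow_succ, Module.End.mul_apply, ih, LinearMap.sub_apply, map_sub, T.q_L, pow_succ,
      Module.End.mul_apply]
    congr 1
    abel

lemma L_pow (n : ℕ) : Z.L ^ n =
    ∑ r ∈ range (n + 1), (Z.L - T.M) ^ r * T.M ^ (n - r) * (n.choose r : Module.End F Z.W) := by
  conv_lhs => rw [← sub_add_cancel Z.L T.M]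
  exact T.commL.add_pow n

lemma L_pow_p (n : ℕ) (x : X.W) : (Z.L ^ n) (T.p x) =
    ∑ r ∈ range (n + 1), (n.choose r : F) • (T.M ^ (n - r)) (T.p ((X.L ^ r) x)) := by
  rw [T.L_pow n, LinearMap.sum_apply]
  refine sum_congr rfl fun r _ => ?_
  rw [((T.commL.pow_left r).pow_right (n - r)).eq, Module.End.mul_apply, Module.End.mul_apply,
    Module.End.natCast_apply, map_nsmul, T.D_p, map_nsmul, Nat.cast_smul_eq_nsmul]

lemma q_L_pow (n : ℕ) (z : Z.W) : T.q ((Z.L ^ n) z) =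
    ∑ r ∈ range (n + 1), (n.choose r : F) • (X.L ^ r) (T.q ((T.M ^ (n - r)) z)) := by
  rw [T.L_pow n, LinearMap.sum_apply, map_sum]
  refine sum_congr rfl fun r _ => ?_
  rw [Module.End.mul_apply, Module.End.mul_apply, Module.End.natCast_apply, map_nsmul, map_nsmul,
    map_nsmul, T.q_D, Nat.cast_smul_eq_nsmul]

/-- the pull-back of a primitive cycle is primitive -/
lemma pull_prim {k : ℕ} {x : X.W} (hx : (X.L ^ (k + 1)) x = 0) :
    (Z.L ^ (k + Y.dim + 1)) (T.p x) = 0 := by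
  rw [T.L_pow_p]
  refine sum_eq_zero fun r hr => ?_
  rcases Nat.lt_or_ge k r with h | h
  · obtain ⟨s, rfl⟩ := Nat.exists_eq_add_of_lt h
    rw [show k + s + 1 = s + (k + 1) by ring, pow_add, Module.End.mul_apply, hx]
    simp
  · rw [T.M_pow_zero (by omega), smul_zero]

lemma pull_height {k : ℕ} {x : X.W} (hx : (X.L ^ (k + 1)) x = 0) :
    Z.B (T.p x) ((Z.L ^ (k + Y.dim)) (T.p x)) =
      ((k + Y.dim).choose k : ℝ) * Y.deg * X.B x ((X.L ^ k) x) := by
  rw [T.L_pow_p, sum_eq_single k]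
  · rw [show k + Y.dim - k = Y.dim by omega, B_smul_natCast, T.p_adj, T.top, B_smul_natCast]
    ring
  · intro r hr hrk
    rw [mem_range] at hr
    rcases Nat.lt_or_ge k r with h | h
    · obtain ⟨s, rfl⟩ := Nat.exists_eq_add_of_lt h
      rw [show k + s + 1 = s + (k + 1) by ring, pow_add, Module.End.mul_apply, hx]
      simp
    · rw [T.M_pow_zero (by omega), smul_zero]
  · intro h
    exact absurd (mem_range.2 (by omega)) h

lemma p_ne {x : X.W} (hx : x ≠ 0) : T.p x ≠ 0 := by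
  intro h
  have h1 := T.top x
  rw [h, map_zero, map_zero] at h1
  exact smul_ne_zero (deg_ne Y) hx h1.symm

/-- the cycle with the coordinates `g` -/
def asm (g : ℕ → X.W) : Z.W := ∑ k ∈ range (Y.dim + 1), (T.M ^ k) (T.p (g (Y.dim - k)))

lemma asm_congr {g g' : ℕ → X.W} (h : ∀ j ≤ Y.dim, g j = g' j) : T.asm g = T.asm g' := by
  unfold asm
  exact sum_congr rfl fun k _ => by rw [h _ (Nat.sub_le _ _)]

lemma asm_mem {i : ℤ} {g : ℕ → X.W} (h : ∀ j ≤ Y.dim, g j ∈ X.Ch (i + j)) :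
    T.asm g ∈ Z.Ch (i + Y.dim) := by
  refine Submodule.sum_mem _ fun k hk => ?_
  rw [mem_range] at hk
  have h1 := T.M_pow_mem (T.p_mem _ _ (h (Y.dim - k) (Nat.sub_le _ _))) k
  refine mem_of_eq ?_ h1
  have : ((Y.dim - k : ℕ) : ℤ) = Y.dim - k := by
    rw [Nat.cast_sub (by omega)]
  rw [this]
  ring

lemma L_asm {g y : ℕ → X.W} (h : ∀ j < Y.dim, X.L (g j) + g (j + 1) = y j)
    (h' : X.L (g Y.dim) = y Y.dim) : Z.L (T.asm g) = T.asm y := by
  have e1 : Z.L (T.asm g) = ∑ k ∈ range (Y.dim + 1), (T.M ^ k) (T.p (X.L (g (Y.dim - k)))) +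
      ∑ k ∈ range (Y.dim + 1), (T.M ^ (k + 1)) (T.p (g (Y.dim - k))) := by
    unfold asm
    rw [map_sum, ← sum_add_distrib]
    refine sum_congr rfl fun k _ => ?_
    rw [T.L_M_pow, T.L_p, map_add, pow_succ, Module.End.mul_apply]
  rw [e1, sum_range_succ' _ Y.dim, sum_range_succ (fun k => (T.M ^ (k + 1)) (T.p (g (Y.dim - k)))),
    T.nil, add_zero]
  unfold asm
  rw [sum_range_succ' _ Y.dim, Nat.sub_zero, h', add_right_comm, ← sum_add_distrib]
  congr 1
  refine sum_congr rfl fun k hk => ?_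
  rw [mem_range] at hk
  rw [← map_add, ← map_add]
  congr 2
  have h2 := h (Y.dim - (k + 1)) (by omega)
  rw [show Y.dim - (k + 1) + 1 = Y.dim - k by omega] at h2
  exact h2

lemma q_M_asm (g : ℕ → X.W) {j : ℕ} (hj : j ≤ Y.dim) :
    T.q ((T.M ^ j) (T.asm g)) = (Y.deg : F) • g j := by
  unfold asm
  rw [map_sum, map_sum, sum_eq_single (Y.dim - j)]
  · rw [← Module.End.mul_apply, ← pow_add, show j + (Y.dim - j) = Y.dim by omega, T.top,
      show Y.dim - (Y.dim - j) = j by omega]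
  · intro k hk hkj
    rw [mem_range] at hk
    rw [← Module.End.mul_apply, ← pow_add]
    rcases Nat.lt_or_ge (j + k) Y.dim with h | h
    · exact T.below _ _ h
    · rw [T.M_pow_zero (by omega), map_zero]
  · intro h
    exact absurd (mem_range.2 (by omega)) h

/-- the lift of a primitive cycle to the middle codimension -/
def lift (x : X.W) : Z.W := T.asm fun j => (-1 : F) ^ j • (X.L ^ j) x

lemma lift_mem {i : ℤ} {x : X.W} (hx : x ∈ X.Ch i) : T.lift x ∈ Z.Ch (i + Y.dim) :=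
  T.asm_mem fun j _ => Submodule.smul_mem _ _ (pow_mem' hx j)

lemma L_lift {x : X.W} (hx : (X.L ^ (Y.dim + 1)) x = 0) : Z.L (T.lift x) = 0 := by
  have h0 : T.asm (fun _ => 0) = 0 := by simp [asm]
  rw [← h0]
  refine T.L_asm (fun j _ => ?_) ?_
  · rw [map_smul, ← Module.End.mul_apply, ← pow_succ', pow_succ (-1 : F), mul_neg_one, neg_smul,
      add_neg_cancel]
  · rw [map_smul, ← Module.End.mul_apply, ← pow_succ', hx, smul_zero]

lemma lift_ne {x : X.W} (hx : x ≠ 0) : T.lift x ≠ 0 := by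
  intro h
  have h1 := T.q_M_asm (fun j => (-1 : F) ^ j • (X.L ^ j) x) (Nat.zero_le _)
  have h2 : T.asm (fun j => (-1 : F) ^ j • (X.L ^ j) x) = 0 := h
  rw [h2, map_zero, map_zero] at h1
  simp only [pow_zero, one_smul, Module.End.one_apply] at h1
  exact smul_ne_zero (deg_ne Y) hx h1.symm

lemma B_asm (g g' : ℕ → X.W) : Z.B (T.asm g) (T.asm g') =
    ∑ k ∈ range (Y.dim + 1), (Y.deg : ℝ) * X.B (g (Y.dim - k)) (g' k) := by
  conv_lhs => rw [asm]
  rw [map_sum, LinearMap.sum_apply]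
  refine sum_congr rfl fun k hk => ?_
  rw [mem_range] at hk
  rw [T.M_adj_pow, T.p_adj, T.q_M_asm g' (by omega), B_smul_natCast]

lemma neg_one_smul_B (a b : ℕ) (x y : X.W) :
    X.B ((-1 : F) ^ a • x) ((-1 : F) ^ b • y) = (-1 : ℝ) ^ (a + b) * X.B x y := by
  rw [map_smul, map_smul, LinearMap.smul_apply, Algebra.smul_def, Algebra.smul_def, map_pow,
    map_pow, map_neg, map_one, pow_add]
  ring

lemma B_lift (x : X.W) : Z.B (T.lift x) (T.lift x) =
    ((Y.dim + 1 : ℕ) : ℝ) * Y.deg * (-1) ^ Y.dim * X.B x ((X.L ^ Y.dim) x) := by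
  unfold lift
  rw [T.B_asm, sum_congr rfl (g := fun _ => (Y.deg : ℝ) * ((-1) ^ Y.dim * X.B x ((X.L ^ Y.dim) x)))]
  · rw [sum_const, card_range, nsmul_eq_mul]
    ring
  · intro k hk
    rw [mem_range] at hk
    rw [T.neg_one_smul_B, adj_pow, ← Module.End.mul_apply, ← pow_add,
      show Y.dim - k + k = Y.dim by omega]

/-- the coordinates of `L z` -/
lemma coord (j : ℕ) (z : Z.W) :
    X.L (T.q ((T.M ^ j) z)) + T.q ((T.M ^ (j + 1)) z) = T.q ((T.M ^ j) (Z.L z)) := by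
  rw [← T.L_M_pow, T.q_L, pow_succ', Module.End.mul_apply]

lemma q_M_mem {i : ℤ} {z : Z.W} (hz : z ∈ Z.Ch (i + Y.dim)) (j : ℕ) :
    T.q ((T.M ^ j) z) ∈ X.Ch (i + j) :=
  mem_of_eq (by ring) (T.q_mem _ _ (T.M_pow_mem hz j))

end Times

end Pool.Agent.K6.H99.AHI
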