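import Pool.Agent.K6.H99.AHI.Hyper
import Pool.Agent.K6.H99.AHI.Main

/-!
# The weak Lefschetz theorem with nondegenerate height pairings
-/

set_option autoImplicit false

namespace Pool.Agent.K6.H99.AHI

open Finset

/-- the height pairings `Ch^i(X)^0 × Ch^j(X)^0 → R`, `i + j = dim X + 1`, are nondegenerate -/
def Perfect {F : Type} [Field F] [Algebra F ℝ] (X : Cyc F) : Prop :=
  ∀ i j : ℕ, i + j = X.dim + 1 → ∀ x ∈ X.Ch i, x ≠ 0 → ∃ y ∈ X.Ch j, X.ht x y ≠ 0

/-- the weak Lefschetz theorem for the restriction maps in the class: `Ch^j(X)^0 → Ch^j(Y)^0` is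
bijective for `2 * j < dim X` and injective for `2 * j = dim X` -/
def Restriction {F : Type} [Field F] [Algebra F ℝ] (C : Set (Cyc F)) : Prop :=
  ∀ X ∈ C, ∀ Y ∈ C, ∀ H : Hyper X Y, ∀ j : ℕ, (2 * j < X.dim → Bij H.r j j) ∧
    (2 * j = X.dim → ∀ x ∈ X.Ch j, H.r x = 0 → x = 0)

lemma perfect_of_both {F : Type} [Field F] [Algebra F ℝ] {X : Cyc F} (h1 : ∀ i, HL X i)
    (h2 : ∀ i, HI X i) : Perfect X := by
  have key : ∀ i k : ℕ, k + 2 * i = X.dim + 1 → ∀ x ∈ X.Ch i, x ≠ 0 →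
      ∃ y ∈ X.Ch (i + k), X.B x y ≠ 0 := by
    intro i k hk x hx hx0
    by_contra hc
    push Not at hc
    exact hx0 (nondeg_of_both h1 h2 i k hk x hx hc)
  intro i j hij x hx hx0
  rcases Nat.le_total i j with hle | hle
  · obtain ⟨k, rfl⟩ := Nat.exists_eq_add_of_le hle
    obtain ⟨y, hy, hB⟩ := key i k (by omega) x hx hx0
    exact ⟨y, mem_of_eq (by push_cast; ring) hy, hB⟩
  · obtain ⟨k, rfl⟩ := Nat.exists_eq_add_of_le hle
    have hk : k + 2 * j = X.dim + 1 := by omega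
    obtain ⟨w, hw, rfl⟩ := (h1 j k hk).2 x (mem_of_eq (by push_cast; ring) hx)
    have hw0 : w ≠ 0 := by
      rintro rfl
      exact hx0 (map_zero _)
    obtain ⟨v, hv, hB⟩ := key j k hk w hw hw0
    obtain ⟨y, hy, rfl⟩ := (h1 j k hk).2 v hv
    refine ⟨y, hy, ?_⟩
    simp only [Cyc.ht]
    rw [adj_pow]
    exact hB

lemma finrank_le_of_sep {X : Cyc ℝ} (hf : ∀ i, Module.Finite ℝ (X.Ch i)) {i j : ℤ}
    (h : ∀ y ∈ X.Ch j, y ≠ 0 → ∃ x ∈ X.Ch i, X.B y x ≠ 0) :
    Module.finrank ℝ (X.Ch j) ≤ Module.finrank ℝ (X.Ch i) := by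
  have := hf i
  have := hf j
  set φ : X.Ch j →ₗ[ℝ] Module.Dual ℝ (X.Ch i) :=
    (LinearMap.lcomp ℝ ℝ (X.Ch i).subtype) ∘ₗ (X.B ∘ₗ (X.Ch j).subtype) with hφ
  have hφi : Function.Injective φ := by
    rw [← LinearMap.ker_eq_bot, LinearMap.ker_eq_bot']
    intro y hy
    by_contra hy0
    obtain ⟨x, hx, hB⟩ := h y y.2 (fun h => hy0 (Subtype.ext h))
    exact hB (congrArg (fun ψ : Module.Dual ℝ (X.Ch i) => ψ ⟨x, hx⟩) hy)
  have d2 := LinearMap.finrank_le_finrank_of_injective hφi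
  rwa [Subspace.dual_finrank_eq] at d2

lemma finrank_le_of_inj {X Y : Cyc ℝ} (hf : ∀ i, Module.Finite ℝ (Y.Ch i)) (f : X.W →ₗ[ℝ] Y.W)
    {i j : ℤ} (hm : ∀ x ∈ X.Ch i, f x ∈ Y.Ch j) (hinj : ∀ x ∈ X.Ch i, f x = 0 → x = 0) :
    Module.finrank ℝ (X.Ch i) ≤ Module.finrank ℝ (Y.Ch j) := by
  have := hf j
  have hfi : Function.Injective (f.restrict hm) := by
    rw [← LinearMap.ker_eq_bot, LinearMap.ker_eq_bot']
    intro x hx
    apply Subtype.ext
    exact hinj x x.2 (congrArg Subtype.val hx)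
  exact LinearMap.finrank_le_finrank_of_injective hfi

lemma surj_of_finrank {X Y : Cyc ℝ} (hfX : ∀ i, Module.Finite ℝ (X.Ch i))
    (hfY : ∀ i, Module.Finite ℝ (Y.Ch i)) (f : X.W →ₗ[ℝ] Y.W)
    {i j : ℤ} (hm : ∀ x ∈ X.Ch i, f x ∈ Y.Ch j) (hinj : ∀ x ∈ X.Ch i, f x = 0 → x = 0)
    (hle : Module.finrank ℝ (Y.Ch j) ≤ Module.finrank ℝ (X.Ch i)) :
    ∀ y ∈ Y.Ch j, ∃ x ∈ X.Ch i, f x = y := by
  have := hfX i
  have := hfY j
  have hfi : Function.Injective (f.restrict hm) := by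
    rw [← LinearMap.ker_eq_bot, LinearMap.ker_eq_bot']
    intro x hx
    apply Subtype.ext
    exact hinj x x.2 (congrArg Subtype.val hx)
  have hfs := (LinearMap.injective_iff_surjective_of_finrank_eq_finrank
    (le_antisymm (LinearMap.finrank_le_finrank_of_injective hfi) hle)).1 hfi
  intro y hy
  obtain ⟨x, hx⟩ := hfs ⟨y, hy⟩
  exact ⟨x, x.2, congrArg Subtype.val hx⟩

theorem both_iff_perfect {C : Set (Cyc ℝ)} (hC : HasSections C)
    (hf : ∀ X ∈ C, ∀ i, Module.Finite ℝ (X.Ch i)) :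
    Both C ↔ (∀ X ∈ C, Perfect X) ∧ Restriction C ∧ MiddleHI C := by
  constructor
  · intro h
    refine ⟨fun X hX => perfect_of_both (fun i => (h X hX i).1) (fun i => (h X hX i).2), ?_,
      fun Z hZ a _ => (h Z hZ a).2⟩
    intro X hX Y hY H j
    constructor
    · intro hj
      exact (H.WL_of (h X hX j).1 (h X hX (j + 1)).2 (h Y hY j).1 (h Y hY j).2 (X.dim - j)
        (by omega) (by omega)).1
    · intro hj x hx hrx
      refine ((h X hX j).1 1 (by omega)).1 x hx ?_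
      rw [pow_one]
      exact H.r_ker hrx
  · rintro ⟨hP, hR, hI⟩
    refine (both_iff hC).2 ⟨?_, ?_, hI⟩
    · intro X hX Y hY H j c hc hjc
      have hb := (hR X hX Y hY H j).1 (by omega)
      have hYd := H.dim_eq
      have hginj : ∀ v ∈ Y.Ch c, H.g v = 0 → v = 0 := by
        intro v hv hgv
        by_contra hv0
        obtain ⟨w, hw, hB⟩ := hP Y hY c j (by omega) v hv hv0
        obtain ⟨x, hx, rfl⟩ := hb.2 w hw
        apply hB
        rw [← H.adj, hgv]
        simp [Cyc.ht]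
      refine ⟨hb, hginj, ?_⟩
      refine surj_of_finrank (hf Y hY) (hf X hX) H.g (fun y hy => H.sec.g_mem _ _ hy) hginj ?_
      have d1 : Module.finrank ℝ (X.Ch ((c : ℤ) + 1)) ≤ Module.finrank ℝ (X.Ch j) := by
        refine finrank_le_of_sep (hf X hX) fun y hy hy0 => ?_
        exact hP X hX (c + 1) j (by omega) y (mem_of_eq (by push_cast; ring) hy) hy0
      have d2 := finrank_le_of_inj (hf Y hY) H.r (fun x hx => H.sec.r_mem j x hx) hb.1
      have d3 : Module.finrank ℝ (Y.Ch j) ≤ Module.finrank ℝ (Y.Ch c) := by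
        refine finrank_le_of_sep (hf Y hY) fun y hy hy0 => ?_
        exact hP Y hY j c (by omega) y hy hy0
      exact d1.trans (d2.trans d3)
    · intro X hX a ha k hk
      obtain rfl : k = 1 := by omega
      rcases Nat.eq_zero_or_pos a with rfl | ha0
      · refine ⟨fun x hx _ => ?_, fun y hy => ⟨0, Submodule.zero_mem _, ?_⟩⟩
        · rw [X.low _ (by simp), Submodule.mem_bot] at hx
          exact hx
        · rw [X.high _ (by push_cast; omega), Submodule.mem_bot] at hy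
          rw [map_zero, hy]
      · obtain ⟨Y, hY, ⟨H⟩⟩ := hC X hX (by omega)
        have hYd := H.dim_eq
        have hinj : ∀ x ∈ X.Ch a, (X.L ^ 1) x = 0 → x = 0 := by
          intro x hx hLx
          rw [pow_one] at hLx
          refine (hR X hX Y hY H a).2 (by omega) x hx ?_
          by_contra hr0
          have h1 := hI Y hY a (by omega) 0 (by omega) _ (H.sec.r_mem _ _ hx) hr0
            (by rw [zero_add, pow_one, ← H.r_L, hLx, map_zero])
          have h2 : Y.ht (H.r x) (H.r x) = 0 := by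
            rw [← H.adj, H.sec.g_r, hLx, smul_zero]
            simp [Cyc.ht]
          rw [pow_zero, Module.End.one_apply, h2, mul_zero] at h1
          exact lt_irrefl _ h1
        refine ⟨hinj, surj_of_nondeg (hf X hX) hinj fun y hy hy0 => ?_⟩
        exact hP X hX (a + 1) a (by omega) y (mem_of_eq (by push_cast; ring) hy) hy0

end Pool.Agent.K6.H99.AHI
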